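import Pool.Agent.Helper51.Hart.Defs2

set_option autoImplicit false

noncomputable section

open Set Metric Complex MeasureTheory

namespace Pool.Helper51.Hart

variable {σ : ℝ × ℂ → ℝ}

/-- the complex normal vector of the slice -/
private def nn (σ : ℝ × ℂ → ℝ) (w₀ : ℂ) (s : ℝ) : ℂ :=
  ⟨-(fderiv ℝ σ (s, w₀) (0, 1)), -(fderiv ℝ σ (s, w₀) (0, I))⟩

private theorem fderiv_eq_nn (w₀ η : ℂ) (s : ℝ) :
    fderiv ℝ σ (s, w₀) (0, η) = -((starRingEnd ℂ) (nn σ w₀ s) * η).re := by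
  have h : ((0 : ℝ), η) = η.re • ((0 : ℝ), (1 : ℂ)) + η.im • ((0 : ℝ), I) := by
    ext <;> simp
  rw [h, map_add, map_smul, map_smul]
  simp only [nn, Complex.mul_re, Complex.conj_re, Complex.conj_im, smul_eq_mul]
  ring

private theorem nn_cont (hσ : Slice σ) (w₀ : ℂ) : Continuous (nn σ w₀) := by
  have h : Continuous (fderiv ℝ σ) := hσ.smooth.continuous_fderiv (by simp)
  have h1 : Continuous (fun s : ℝ => fderiv ℝ σ (s, w₀)) := h.comp (by fun_prop)
  have h2 : Continuous (fun s : ℝ => fderiv ℝ σ (s, w₀) (0, 1)) :=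
    h1.clm_apply continuous_const
  have h3 : Continuous (fun s : ℝ => fderiv ℝ σ (s, w₀) (0, I)) :=
    h1.clm_apply continuous_const
  have h4 : nn σ w₀ = fun s => ((-(fderiv ℝ σ (s, w₀) (0, 1)) : ℝ) : ℂ) +
      ((-(fderiv ℝ σ (s, w₀) (0, I)) : ℝ) : ℂ) * I := by
    funext s
    apply Complex.ext <;> simp [nn]
  rw [h4]
  fun_prop

private theorem F_diff (hσ : Slice σ) (w₀ v : ℂ) :
    Differentiable ℝ (fun s : ℝ => fderiv ℝ σ (s, w₀) (0, v)) := by
  have h : ContDiff ℝ 1 (fderiv ℝ σ) := hσ.smooth.fderiv_right (m := 1) (by norm_cast)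
  have h1 : Differentiable ℝ (fderiv ℝ σ) := h.differentiable (by norm_num)
  have h2 : Differentiable ℝ (fun s : ℝ => ((s, w₀) : ℝ × ℂ)) := by fun_prop
  have h3 : Differentiable ℝ (fun s : ℝ => fderiv ℝ σ (s, w₀)) := h1.comp h2
  exact h3.clm_apply (differentiable_const _)

private theorem end_form (hσ : Slice σ) (hc : Compare σ) {w₀ v : ℂ} {e s1 κ : ℝ} (he : 0 < e)
    (hs1 : 0 < s1) (hκ : (κ = 1 ∧ s1 < e) ∨ (κ = -1 ∧ e < s1)) (hv : ‖v‖ = 1)
    (hk : ∀ s ∈ uIcc e s1, σ (s, w₀) = 0)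
    (hpos : ∀ s ∈ uIcc e s1, s ≠ e → fderiv ℝ σ (s, w₀) (0, v) < 0)
    (hend : fderiv ℝ σ (e, w₀) (0, v) = 0)
    (hne : ∃ η : ℂ, fderiv ℝ σ (e, w₀) (0, η) ≠ 0) :
    ∃ c : ℝ, 0 < κ * c ∧ ∀ s ∈ uIcc e s1, fderiv ℝ σ (s, w₀) (0, v) =
      -(‖nn σ w₀ s‖ * Real.sin (c * (Real.log e - Real.log s))) := by
  set mm : ℝ → ℂ := fun s => nn σ w₀ s * (starRingEnd ℂ) v with hmm
  have hmc : Continuous mm := (nn_cont hσ w₀).mul continuous_const
  have hvv : (starRingEnd ℂ) v * v = 1 := by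
    rw [mul_comm, Complex.mul_conj, Complex.normSq_eq_norm_sq, hv]; norm_num
  have hmv : ∀ s, nn σ w₀ s = mm s * v := by
    intro s; rw [hmm]; simp only; rw [mul_assoc, hvv, mul_one]
  have hnorm : ∀ s, ‖mm s‖ = ‖nn σ w₀ s‖ := by
    intro s; rw [hmm]; simp only; rw [norm_mul, Complex.norm_conj, hv, mul_one]
  have hre : ∀ s, (mm s).re = -(fderiv ℝ σ (s, w₀) (0, v)) := by
    intro s
    rw [fderiv_eq_nn, neg_neg, hmm]
    simp only [Complex.mul_re, Complex.conj_re, Complex.conj_im]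
    ring
  have hnene : nn σ w₀ e ≠ 0 := by
    obtain ⟨η, hη⟩ := hne
    intro h0
    apply hη
    rw [fderiv_eq_nn, h0]; simp
  have hme0 : mm e ≠ 0 := by
    intro h0
    apply hnene
    rw [hmv, h0, zero_mul]
  have hmere : (mm e).re = 0 := by rw [hre, hend, neg_zero]
  have hmeim : (mm e).im ≠ 0 := by
    intro h0
    exact hme0 (Complex.ext hmere h0)
  have hmpos : ∀ s ∈ uIcc e s1, s ≠ e → 0 < (mm s).re := by
    intro s hs hse
    rw [hre]; linarith [hpos s hs hse]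
  have hslit : ∀ s ∈ uIcc e s1, mm s ∈ Complex.slitPlane := by
    intro s hs
    rw [Complex.mem_slitPlane_iff]
    by_cases h : s = e
    · right; rw [h]; exact hmeim
    · left; exact hmpos s hs h
  -- the angle
  set ϑ : ℝ → ℝ := fun L => Complex.arg (mm (Real.exp L)) + Complex.arg v with hϑ
  obtain ⟨L1, L2, hL12, hLmem, hLe, hLs⟩ : ∃ L1 L2 : ℝ, L1 < L2 ∧
      (∀ L ∈ Icc L1 L2, Real.exp L ∈ uIcc e s1) ∧
      ((Real.log e = L1 ∧ Real.log s1 = L2) ∨ (Real.log e = L2 ∧ Real.log s1 = L1)) ∧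
      (∀ s ∈ uIcc e s1, Real.log s ∈ Icc L1 L2) := by
    rcases hκ with ⟨_, h⟩ | ⟨_, h⟩
    · refine ⟨Real.log s1, Real.log e, Real.log_lt_log hs1 h, ?_, Or.inr ⟨rfl, rfl⟩, ?_⟩
      · intro L hL
        rw [uIcc_of_ge h.le]
        constructor
        · rw [← Real.exp_log hs1]; exact Real.exp_le_exp.mpr hL.1
        · rw [← Real.exp_log he]; exact Real.exp_le_exp.mpr hL.2
      · intro s hs
        rw [uIcc_of_ge h.le] at hs
        have hs0 : 0 < s := lt_of_lt_of_le hs1 hs.1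
        exact ⟨Real.log_le_log hs1 hs.1, Real.log_le_log hs0 hs.2⟩
    · refine ⟨Real.log e, Real.log s1, Real.log_lt_log he h, ?_, Or.inl ⟨rfl, rfl⟩, ?_⟩
      · intro L hL
        rw [uIcc_of_le h.le]
        constructor
        · rw [← Real.exp_log he]; exact Real.exp_le_exp.mpr hL.1
        · rw [← Real.exp_log hs1]; exact Real.exp_le_exp.mpr hL.2
      · intro s hs
        rw [uIcc_of_le h.le] at hs
        have hs0 : 0 < s := lt_of_lt_of_le he hs.1
        exact ⟨Real.log_le_log he hs.1, Real.log_le_log hs0 hs.2⟩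
  have hexpc : ContinuousOn (fun L => mm (Real.exp L)) (Icc L1 L2) :=
    (hmc.comp Real.continuous_exp).continuousOn
  have hNc : ContinuousOn (fun L => ‖mm (Real.exp L)‖) (Icc L1 L2) := hexpc.norm
  have hϑc : ContinuousOn ϑ (Icc L1 L2) := by
    apply ContinuousOn.add _ continuousOn_const
    intro L hL
    have h1 := Complex.continuousAt_arg (hslit _ (hLmem L hL))
    exact h1.comp_continuousWithinAt (f := fun L => mm (Real.exp L)) (hexpc L hL)
  have hNpos : ∀ L ∈ Icc L1 L2, 0 < ‖mm (Real.exp L)‖ := by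
    intro L hL
    exact norm_pos_iff.mpr (Complex.slitPlane_ne_zero (hslit _ (hLmem L hL)))
  have hform : ∀ L ∈ Icc L1 L2, ∀ η : ℂ, fderiv ℝ σ (Real.exp L, w₀) (0, η) =
      -(‖mm (Real.exp L)‖ * (Complex.exp (-(ϑ L * I)) * η).re) := by
    intro L _ η
    rw [fderiv_eq_nn]
    have h1 : (starRingEnd ℂ) (nn σ w₀ (Real.exp L)) =
        (‖mm (Real.exp L)‖ : ℂ) * Complex.exp (-(ϑ L * I)) := by
      rw [hmv]
      have h2 := Complex.norm_mul_exp_arg_mul_I (mm (Real.exp L))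
      have h3 := Complex.norm_mul_exp_arg_mul_I v
      rw [hv] at h3
      have h4 : mm (Real.exp L) * v = (‖mm (Real.exp L)‖ : ℂ) *
          Complex.exp (ϑ L * I) := by
        have h5 : Complex.exp (ϑ L * I) = Complex.exp (Complex.arg (mm (Real.exp L)) * I) *
            Complex.exp (Complex.arg v * I) := by
          rw [← Complex.exp_add, hϑ]
          push_cast
          ring_nf
        rw [h5, ← mul_assoc, h2]
        congr 1
        rw [Complex.ofReal_one, one_mul] at h3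
        exact h3.symm
      rw [h4, map_mul, Complex.conj_ofReal, ← Complex.exp_conj]
      congr 2
      simp
    rw [h1, mul_assoc, Complex.re_ofReal_mul]
  have hk' : ∀ L ∈ Icc L1 L2, σ (Real.exp L, w₀) = 0 := fun L hL => hk _ (hLmem L hL)
  -- the angle is affine
  set q : ℝ := (ϑ L2 - ϑ L1) / (L2 - L1) with hq
  set p : ℝ := ϑ L1 - q * L1 with hp
  have hqq : q * (L2 - L1) = ϑ L2 - ϑ L1 := by
    rw [hq]; field_simp [sub_ne_zero.mpr hL12.ne']
  have e1 : ϑ L1 = p + q * L1 := by rw [hp]; ring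
  have e2 : ϑ L2 = p + q * L2 := by
    have : q * L2 = q * L1 + (ϑ L2 - ϑ L1) := by rw [← hqq]; ring
    rw [this, hp]; ring
  obtain ⟨c1, c2⟩ := hc w₀ L1 L2 hL12 hk' _ ϑ hNc hϑc hNpos hform p q
  have haff : ∀ L ∈ Icc L1 L2, ϑ L = p + q * L := by
    intro L hL
    exact le_antisymm (c1 e1.le e2.le L hL) (c2 e1.ge e2.ge L hL)
  have hLemem : Real.log e ∈ Icc L1 L2 := hLs e left_mem_uIcc
  have hLsmem : Real.log s1 ∈ Icc L1 L2 := hLs s1 right_mem_uIcc
  have harg : ∀ s ∈ uIcc e s1, 0 < s → Complex.arg (mm s) =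
      Complex.arg (mm e) + q * (Real.log s - Real.log e) := by
    intro s hs hs0
    have h1 := haff _ (hLs s hs)
    have h2 := haff _ hLemem
    rw [hϑ] at h1 h2
    simp only [Real.exp_log hs0, Real.exp_log he] at h1 h2
    linarith
  have hspos : ∀ s ∈ uIcc e s1, 0 < s := by
    intro s hs
    rcases le_total e s1 with h | h
    · rw [uIcc_of_le h] at hs; exact lt_of_lt_of_le he hs.1
    · rw [uIcc_of_ge h] at hs; exact lt_of_lt_of_le hs1 hs.1
  have hs1e : s1 ≠ e := by rcases hκ with ⟨_, h⟩ | ⟨_, h⟩ <;> [exact h.ne; exact h.ne']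
  have hA1 : |Complex.arg (mm s1)| < Real.pi / 2 := by
    rw [Complex.abs_arg_lt_pi_div_two_iff]
    left
    exact hmpos s1 right_mem_uIcc hs1e
  have hA2 := harg s1 right_mem_uIcc hs1
  rw [abs_lt] at hA1
  -- value of the derivative
  have hval : ∀ s ∈ uIcc e s1, fderiv ℝ σ (s, w₀) (0, v) =
      -(‖nn σ w₀ s‖ * Real.cos (Complex.arg (mm e) + q * (Real.log s - Real.log e))) := by
    intro s hs
    rw [← harg s hs (hspos s hs), Complex.cos_arg (Complex.slitPlane_ne_zero (hslit s hs)),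
      hnorm, hre]
    have : ‖nn σ w₀ s‖ ≠ 0 := by
      rw [← hnorm]
      exact norm_ne_zero_iff.mpr (Complex.slitPlane_ne_zero (hslit s hs))
    field_simp
  rcases lt_or_gt_of_ne hmeim with him | him
  · -- argument is minus pi over two
    have hargm : Complex.arg (mm e) = -(Real.pi / 2) :=
      Complex.arg_eq_neg_pi_div_two_iff.mpr ⟨hmere, him⟩
    refine ⟨-q, ?_, ?_⟩
    · rw [hargm] at hA2
      have h1 : 0 < q * (Real.log s1 - Real.log e) := by linarith [hA1.1]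
      rcases hκ with ⟨rfl, h⟩ | ⟨rfl, h⟩
      · have h2 : Real.log s1 < Real.log e := Real.log_lt_log hs1 h
        nlinarith
      · have h2 : Real.log e < Real.log s1 := Real.log_lt_log he h
        nlinarith
    · intro s hs
      rw [hval s hs, hargm]
      congr 2
      rw [show -(Real.pi / 2) + q * (Real.log s - Real.log e) =
        -(Real.pi / 2 - q * (Real.log s - Real.log e)) by ring, Real.cos_neg,
        Real.cos_pi_div_two_sub]
      congr 1
      ring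
  · have hargm : Complex.arg (mm e) = Real.pi / 2 :=
      Complex.arg_eq_pi_div_two_iff.mpr ⟨hmere, him⟩
    refine ⟨q, ?_, ?_⟩
    · rw [hargm] at hA2
      have h1 : q * (Real.log s1 - Real.log e) < 0 := by linarith [hA1.2]
      rcases hκ with ⟨rfl, h⟩ | ⟨rfl, h⟩
      · have h2 : Real.log s1 < Real.log e := Real.log_lt_log hs1 h
        nlinarith
      · have h2 : Real.log e < Real.log s1 := Real.log_lt_log he h
        nlinarith
    · intro s hs
      rw [hval s hs, hargm]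
      congr 2
      rw [show Real.pi / 2 + q * (Real.log s - Real.log e) =
        Real.pi / 2 - q * (Real.log e - Real.log s) by ring, Real.cos_pi_div_two_sub]

private theorem end_deriv (hσ : Slice σ) (hc : Compare σ) {w₀ v : ℂ} {e s1 κ : ℝ} (he : 0 < e)
    (hs1 : 0 < s1) (hκ : (κ = 1 ∧ s1 < e) ∨ (κ = -1 ∧ e < s1)) (hv : ‖v‖ = 1)
    (hk : ∀ s ∈ uIcc e s1, σ (s, w₀) = 0)
    (hpos : ∀ s ∈ uIcc e s1, s ≠ e → fderiv ℝ σ (s, w₀) (0, v) < 0)
    (hend : fderiv ℝ σ (e, w₀) (0, v) = 0)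
    (hne : ∃ η : ℂ, fderiv ℝ σ (e, w₀) (0, η) ≠ 0) :
    0 < κ * deriv (fun s : ℝ => fderiv ℝ σ (s, w₀) (0, v)) e := by
  obtain ⟨c, hcpos, hform⟩ := end_form hσ hc he hs1 hκ hv hk hpos hend hne
  have hnene : nn σ w₀ e ≠ 0 := by
    obtain ⟨η, hη⟩ := hne
    intro h0
    apply hη
    rw [fderiv_eq_nn, h0]; simp
  have hN : 0 < ‖nn σ w₀ e‖ := norm_pos_iff.mpr hnene
  set g : ℝ → ℝ := fun s => Real.sin (c * (Real.log e - Real.log s)) with hg
  have hgd : HasDerivAt g (-(c / e)) e := by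
    have h1 : HasDerivAt (fun s => c * (Real.log e - Real.log s)) (c * (0 - e⁻¹)) e :=
      ((hasDerivAt_const e (Real.log e)).sub (Real.hasDerivAt_log he.ne')).const_mul c
    have h2 := h1.sin
    convert h2 using 1
    rw [sub_self, mul_zero, Real.cos_zero]
    field_simp
    ring
  have hge : g e = 0 := by simp [hg]
  have hFd : HasDerivAt (fun s : ℝ => fderiv ℝ σ (s, w₀) (0, v))
      (deriv (fun s : ℝ => fderiv ℝ σ (s, w₀) (0, v)) e) e :=
    ((F_diff hσ w₀ v) e).hasDerivAt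
  -- a one sided filter
  obtain ⟨l, hl, hlb, hmem⟩ : ∃ l : Filter ℝ, l ≤ nhdsWithin e {e}ᶜ ∧ l.NeBot ∧
      uIcc e s1 ∈ l := by
    rcases hκ with ⟨_, h⟩ | ⟨_, h⟩
    · refine ⟨nhdsWithin e (Iio e), nhdsWithin_mono _ (fun x hx => ne_of_lt hx), inferInstance, ?_⟩
      rw [uIcc_of_ge h.le]
      exact Filter.mem_of_superset (Ioo_mem_nhdsLT h) Ioo_subset_Icc_self
    · refine ⟨nhdsWithin e (Ioi e), nhdsWithin_mono _ (fun x hx => ne_of_gt hx), inferInstance, ?_⟩
      rw [uIcc_of_le h.le]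
      exact Filter.mem_of_superset (Ioo_mem_nhdsGT h) Ioo_subset_Icc_self
  have t1 := (hasDerivAt_iff_tendsto_slope.mp hgd).mono_left hl
  have t2 := (hasDerivAt_iff_tendsto_slope.mp hFd).mono_left hl
  have t3 : Filter.Tendsto (fun s => ‖nn σ w₀ s‖) l (nhds ‖nn σ w₀ e‖) :=
    ((nn_cont hσ w₀).norm.tendsto e).mono_left (hl.trans nhdsWithin_le_nhds)
  have t4 := (t3.mul t1).neg
  have t5 : Filter.Tendsto (slope (fun s : ℝ => fderiv ℝ σ (s, w₀) (0, v)) e) l
      (nhds (-(‖nn σ w₀ e‖ * -(c / e)))) := by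
    refine t4.congr' ?_
    filter_upwards [hmem] with s hs
    rw [slope_def_field, slope_def_field, hend, hge, sub_zero, sub_zero, hform s hs]
    ring
  have heq := tendsto_nhds_unique t2 t5
  rw [heq]
  have : κ * -(‖nn σ w₀ e‖ * -(c / e)) = ‖nn σ w₀ e‖ * (κ * c) / e := by ring
  rw [this]
  positivity

/-- HT-11 -/
theorem slope (hσ : Slice σ) (hc : Compare σ) {w₀ v : ℂ} {r1 r2 : ℝ} (hr1 : 0 ≤ r1)
    (h12 : r1 < r2) (hv : ‖v‖ = 1) (hk : ∀ s ∈ Icc r1 r2, σ (s, w₀) = 0)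
    (hpos : ∀ s ∈ Ioo r1 r2, fderiv ℝ σ (s, w₀) (0, v) < 0)
    (hne : ∀ s ∈ Icc r1 r2, ∃ η : ℂ, fderiv ℝ σ (s, w₀) (0, η) ≠ 0)
    (h1 : fderiv ℝ σ (r1, w₀) (0, v) = 0) (h2 : fderiv ℝ σ (r2, w₀) (0, v) = 0) :
    (0 < deriv (fun s : ℝ => fderiv ℝ σ (s, w₀) (0, v)) r2) ∧
    (0 < r1 → deriv (fun s : ℝ => fderiv ℝ σ (s, w₀) (0, v)) r1 < 0) := by
  set s1 : ℝ := (r1 + r2) / 2 with hs1
  have a1 : r1 < s1 := by rw [hs1]; linarith
  have a2 : s1 < r2 := by rw [hs1]; linarith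
  constructor
  · have := end_deriv hσ hc (w₀ := w₀) (v := v) (e := r2) (s1 := s1) (κ := 1) (by linarith)
      (by linarith) (Or.inl ⟨rfl, a2⟩) hv ?_ ?_ h2 (hne r2 ⟨h12.le, le_refl _⟩)
    · linarith
    · intro s hs
      rw [uIcc_of_ge a2.le] at hs
      exact hk s ⟨by linarith [hs.1], hs.2⟩
    · intro s hs hse
      rw [uIcc_of_ge a2.le] at hs
      exact hpos s ⟨by linarith [hs.1], lt_of_le_of_ne hs.2 hse⟩
  · intro h0
    have := end_deriv hσ hc (w₀ := w₀) (v := v) (e := r1) (s1 := s1) (κ := -1) h0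
      (by linarith) (Or.inr ⟨rfl, a1⟩) hv ?_ ?_ h1 (hne r1 ⟨le_refl _, h12.le⟩)
    · linarith
    · intro s hs
      rw [uIcc_of_le a1.le] at hs
      exact hk s ⟨hs.1, by linarith [hs.2]⟩
    · intro s hs hse
      rw [uIcc_of_le a1.le] at hs
      exact hpos s ⟨lt_of_le_of_ne hs.1 (Ne.symm hse), by linarith [hs.2]⟩

end Pool.Helper51.Hart
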